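import Pool.Agent.Helper28.Ram.Alg

/-!
# Macro steps

A step of a machine is silent if it does not change the content of its register. A macro step
consists of `2 ^ h` steps of which only the silent ones are executed, until the first step which is
not silent, and of one more step.
-/

namespace Pool.Agent.Helper28.Few

open Pool.Agent.Helper65.LinSpace Pool.Agent.Helper28.Ram Finset

/-- A silent step is executed, otherwise the state is kept. -/
def sil (A : ℕ → ℕ) (N W : ℕ → ℕ → ℕ) (M : ℕ → ℕ) (q : ℕ) : ℕ :=
  if W q (M (A q)) = M (A q) then N q (M (A q)) else q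

/-- The configuration after `T` macro steps. -/
def mcf (A : ℕ → ℕ) (N W : ℕ → ℕ → ℕ) (h q : ℕ) (M : ℕ → ℕ) : ℕ → ℕ × (ℕ → ℕ)
  | 0 => (q, M)
  | T + 1 => cf A N W (iter (fun _ u => sil A N W (mcf A N W h q M T).2 u) (2 ^ h)
      (mcf A N W h q M T).1) (mcf A N W h q M T).2 1

section

variable {A : ℕ → ℕ} {N W : ℕ → ℕ → ℕ} {q : ℕ} {M : ℕ → ℕ}

theorem cf_succ (t : ℕ) : cf A N W q M (t + 1) =
    (N (cf A N W q M t).1 ((cf A N W q M t).2 (A (cf A N W q M t).1)),
      Function.update (cf A N W q M t).2 (A (cf A N W q M t).1)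
        (W (cf A N W q M t).1 ((cf A N W q M t).2 (A (cf A N W q M t).1)))) := rfl

theorem cf_one (c : ℕ × (ℕ → ℕ)) : cf A N W c.1 c.2 1 =
    (N c.1 (c.2 (A c.1)), Function.update c.2 (A c.1) (W c.1 (c.2 (A c.1)))) := rfl

theorem cf_one_cf (t : ℕ) : cf A N W (cf A N W q M t).1 (cf A N W q M t).2 1 =
    cf A N W q M (t + 1) := rfl

variable (A N W q M) in
/-- The step `t` changes the content of a register. -/
def chg (t : ℕ) : Prop :=
  W (cf A N W q M t).1 ((cf A N W q M t).2 (A (cf A N W q M t).1)) ≠
    (cf A N W q M t).2 (A (cf A N W q M t).1)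

theorem mem_of_not_chg {t : ℕ} (h : ¬chg A N W q M t) :
    (cf A N W q M (t + 1)).2 = (cf A N W q M t).2 := by
  unfold chg at h
  push Not at h
  rw [cf_succ, h]
  exact Function.update_eq_self _ _

theorem sil_of_not_chg {t : ℕ} (h : ¬chg A N W q M t) :
    sil A N W (cf A N W q M t).2 (cf A N W q M t).1 = (cf A N W q M (t + 1)).1 := by
  unfold chg at h
  push Not at h
  unfold sil
  rw [if_pos h, cf_succ]

theorem sil_of_chg {t : ℕ} (h : chg A N W q M t) :
    sil A N W (cf A N W q M t).2 (cf A N W q M t).1 = (cf A N W q M t).1 := by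
  unfold chg at h
  unfold sil
  rw [if_neg h]

theorem mem_eq {t j : ℕ} (h : ∀ i < j, ¬chg A N W q M (t + i)) :
    (cf A N W q M (t + j)).2 = (cf A N W q M t).2 := by
  induction j with
  | zero => rfl
  | succ j ih =>
    rw [← add_assoc, mem_of_not_chg (h j (by omega)), ih fun i hi => h i (by omega)]

/-- The absorbing silent steps from a configuration of the run. -/
theorem run (t n : ℕ) : ∃ j ≤ n, (∀ i < j, ¬chg A N W q M (t + i)) ∧
    iter (fun _ q' => sil A N W (cf A N W q M t).2 q') n (cf A N W q M t).1 =
      (cf A N W q M (t + j)).1 ∧ (j = n ∨ chg A N W q M (t + j)) := by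
  induction n with
  | zero => exact ⟨0, le_rfl, fun i hi => absurd hi (Nat.not_lt_zero i), rfl, Or.inl rfl⟩
  | succ n ih =>
    obtain ⟨j, hj, h1, h2, h3⟩ := ih
    have e : iter (fun _ q' => sil A N W (cf A N W q M t).2 q') (n + 1) (cf A N W q M t).1 =
        sil A N W (cf A N W q M t).2
          (iter (fun _ q' => sil A N W (cf A N W q M t).2 q') n (cf A N W q M t).1) := rfl
    have hm := mem_eq h1
    rw [e, h2]
    by_cases hc : chg A N W q M (t + j)
    · refine ⟨j, by omega, h1, ?_, Or.inr hc⟩
      rw [← hm]
      exact sil_of_chg hc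
    · have hjn : j = n := h3.resolve_right hc
      subst hjn
      refine ⟨j + 1, le_rfl, fun i hi => ?_, ?_, Or.inl rfl⟩
      · rcases Nat.lt_or_ge i j with h | h
        · exact h1 i h
        · have : i = j := by omega
          rw [this]
          exact hc
      · rw [← hm]
        exact sil_of_not_chg hc

/-- A macro step from a configuration of the run. -/
theorem macro_step {h T t : ℕ} (hT : mcf A N W h q M T = cf A N W q M t) :
    ∃ j ≤ 2 ^ h, (∀ i < j, ¬chg A N W q M (t + i)) ∧
      mcf A N W h q M (T + 1) = cf A N W q M (t + j + 1) ∧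
      (j = 2 ^ h ∨ chg A N W q M (t + j)) := by
  obtain ⟨j, hj, h1, h2, h3⟩ := run (A := A) (N := N) (W := W) (q := q) (M := M) t (2 ^ h)
  refine ⟨j, hj, h1, ?_, h3⟩
  show cf A N W (iter (fun _ q' => sil A N W (mcf A N W h q M T).2 q') (2 ^ h)
      (mcf A N W h q M T).1) (mcf A N W h q M T).2 1 = _
  rw [hT, h2, ← mem_eq h1]
  exact cf_one_cf _

/-- The macro run consists of configurations of the run. -/
theorem macro_sound (h T : ℕ) : ∃ t, mcf A N W h q M T = cf A N W q M t := by
  induction T with
  | zero => exact ⟨0, rfl⟩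
  | succ T ih =>
    obtain ⟨t, ht⟩ := ih
    obtain ⟨j, _, _, h2, _⟩ := macro_step ht
    exact ⟨_, h2⟩

open Classical in
variable (A N W q M) in
/-- The number of changes before the time `t`. -/
noncomputable def chs (t : ℕ) : ℕ := ((range t).filter (chg A N W q M)).card

theorem chs_mono {s t : ℕ} (h : s ≤ t) : chs A N W q M s ≤ chs A N W q M t := by
  classical
  exact card_le_card (filter_subset_filter _ (range_mono h))

theorem chs_lt {s t : ℕ} (h : s < t) (hc : chg A N W q M s) :
    chs A N W q M s + 1 ≤ chs A N W q M t := by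
  classical
  refine le_trans ?_ (chs_mono (A := A) (N := N) (W := W) (q := q) (M := M) h)
  unfold chs
  rw [range_add_one, filter_insert, if_pos hc, card_insert_of_notMem (by simp)]

/-- Acceptance: an accepting state is kept and nothing is changed. -/
def Absorb (A : ℕ → ℕ) (N W : ℕ → ℕ → ℕ) (q : ℕ) (M : ℕ → ℕ) (acc : ℕ → Prop) : Prop :=
  ∀ t, acc (cf A N W q M t).1 → cf A N W q M (t + 1) = cf A N W q M t

theorem keep {acc : ℕ → Prop} (ha : Absorb A N W q M acc) {t : ℕ}
    (h : acc (cf A N W q M t).1) : ∀ s, t ≤ s → cf A N W q M s = cf A N W q M t := by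
  intro s hs
  induction s, hs using Nat.le_induction with
  | base => rfl
  | succ s _ ih =>
    rw [ha s (by rw [ih]; exact h), ih]

theorem cf_add_congr {s t : ℕ} (h : cf A N W q M s = cf A N W q M t) (m : ℕ) :
    cf A N W q M (s + m) = cf A N W q M (t + m) := by
  induction m with
  | zero => exact h
  | succ m ih => rw [← add_assoc, ← add_assoc, cf_succ, cf_succ, ih]

/-- After a repetition the run is periodic. -/
theorem periodic {s d : ℕ} (hd : 0 < d) (h : cf A N W q M (s + d) = cf A N W q M s) (m : ℕ) :
    ∃ i < d, cf A N W q M (s + m) = cf A N W q M (s + i) := by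
  induction m using Nat.strong_induction_on with
  | _ m ih =>
    rcases Nat.lt_or_ge m d with hm | hm
    · exact ⟨m, hm, rfl⟩
    · obtain ⟨i, hi, e⟩ := ih (m - d) (by omega)
      refine ⟨i, hi, ?_⟩
      rw [← e, ← cf_add_congr h (m - d)]
      congr 1
      omega

/-- **The macro run accepts.** -/
theorem macro_complete {acc : ℕ → Prop} (ha : Absorb A N W q M acc) {h r x : ℕ}
    (hr : acc (cf A N W q M r).1) (hx : chs A N W q M r ≤ x)
    (hb : r ≤ 2 ^ h * (x + 1) ∨ ∀ t, (cf A N W q M t).1 < 2 ^ h) :
    ∀ T, 2 * x + 1 ≤ T → acc (mcf A N W h q M T).1 := by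
  have hacc : ∀ t, r ≤ t → acc (cf A N W q M t).1 := fun t ht => by
    rw [keep ha hr t ht]
    exact hr
  -- the potential
  obtain ⟨φ, hφ1, hφ2, hφ3⟩ : ∃ φ : ℕ → ℕ,
      (∀ t < r, φ t ≤ 2 * x) ∧
      (∀ t j, chg A N W q M (t + j) → φ t + 1 ≤ φ (t + j + 1)) ∧
      (∀ t, (∀ i < 2 ^ h, ¬chg A N W q M (t + i)) → ¬acc (cf A N W q M (t + 2 ^ h + 1)).1 →
        φ t + 1 ≤ φ (t + 2 ^ h + 1)) := by
    rcases hb with hb | hb
    · refine ⟨fun t => chs A N W q M t + t / 2 ^ h, fun t ht => ?_, fun t j hc => ?_,
        fun t _ _ => ?_⟩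
      · have h1 : t / 2 ^ h < x + 1 := by
          rw [Nat.div_lt_iff_lt_mul (by positivity), mul_comm]
          omega
        have h2 := chs_mono (A := A) (N := N) (W := W) (q := q) (M := M) ht.le
        show chs A N W q M t + t / 2 ^ h ≤ 2 * x
        omega
      · have h1 : t / 2 ^ h ≤ (t + j + 1) / 2 ^ h := Nat.div_le_div_right (by omega)
        have h2 := chs_mono (A := A) (N := N) (W := W) (q := q) (M := M)
          (show t ≤ t + j by omega)
        have h3 := chs_lt (A := A) (N := N) (W := W) (q := q) (M := M)
          (show t + j < t + j + 1 by omega) hc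
        show chs A N W q M t + t / 2 ^ h + 1 ≤ chs A N W q M (t + j + 1) + (t + j + 1) / 2 ^ h
        omega
      · have h0 : 0 < 2 ^ h := by positivity
        have h1 : t / 2 ^ h + 1 ≤ (t + 2 ^ h + 1) / 2 ^ h := by
          rw [← Nat.add_div_right t h0]
          exact Nat.div_le_div_right (by omega)
        have h2 := chs_mono (A := A) (N := N) (W := W) (q := q) (M := M)
          (show t ≤ t + 2 ^ h + 1 by omega)
        show chs A N W q M t + t / 2 ^ h + 1 ≤
          chs A N W q M (t + 2 ^ h + 1) + (t + 2 ^ h + 1) / 2 ^ h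
        omega
    · refine ⟨fun t => chs A N W q M t, fun t ht => ?_, fun t j hc => ?_, fun t hc hna => ?_⟩
      · have h2 := chs_mono (A := A) (N := N) (W := W) (q := q) (M := M) ht.le
        show chs A N W q M t ≤ 2 * x
        omega
      · have h2 := chs_mono (A := A) (N := N) (W := W) (q := q) (M := M)
          (show t ≤ t + j by omega)
        have h3 := chs_lt (A := A) (N := N) (W := W) (q := q) (M := M)
          (show t + j < t + j + 1 by omega) hc
        show chs A N W q M t + 1 ≤ chs A N W q M (t + j + 1)
        omega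
      · exfalso
        obtain ⟨a, ha1, b, hb1, hab, e⟩ := exists_ne_map_eq_of_card_lt_of_maps_to
          (s := range (2 ^ h + 1)) (t := range (2 ^ h))
          (f := fun i => (cf A N W q M (t + i)).1) (by simp)
          (fun i _ => by simpa using hb (t + i))
        rw [mem_range] at ha1 hb1
        have hne : ¬acc (cf A N W q M r).1 := by
          have key : ∀ a b : ℕ, a < b → b < 2 ^ h + 1 →
              (cf A N W q M (t + a)).1 = (cf A N W q M (t + b)).1 →
                ¬acc (cf A N W q M r).1 := by
            intro a b hab hb1 e hr'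
            have hm1 := mem_eq (A := A) (N := N) (W := W) (q := q) (M := M) (t := t) (j := a)
              fun i hi => hc i (by omega)
            have hm2 := mem_eq (A := A) (N := N) (W := W) (q := q) (M := M) (t := t) (j := b)
              fun i hi => hc i (by omega)
            have e2 : cf A N W q M (t + a + (b - a)) = cf A N W q M (t + a) := by
              rw [show t + a + (b - a) = t + b by omega]
              exact Prod.ext e.symm (by rw [hm1, hm2])
            rcases Nat.lt_or_ge r (t + 2 ^ h + 1) with hr1 | hr1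
            · exact hna (hacc _ hr1.le)
            · obtain ⟨i, hi, e3⟩ := periodic (by omega) e2 (r - (t + a))
              rw [show t + a + (r - (t + a)) = r by omega] at e3
              rw [e3] at hr'
              apply hna
              rw [keep ha hr' _ (by omega)]
              exact hr'
          rcases Nat.lt_or_gt_of_ne hab with h1 | h1
          · exact key a b h1 hb1 e
          · exact key b a h1 ha1 e.symm
        exact hne hr
  have main : ∀ T, acc (mcf A N W h q M T).1 ∨
      ∃ t < r, mcf A N W h q M T = cf A N W q M t ∧ T ≤ φ t := by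
    intro T
    induction T with
    | zero =>
      rcases Nat.eq_zero_or_pos r with h0 | h0
      · left
        subst h0
        exact hr
      · exact Or.inr ⟨0, h0, rfl, Nat.zero_le _⟩
    | succ T ih =>
      by_cases hna : acc (mcf A N W h q M (T + 1)).1
      · exact Or.inl hna
      right
      rcases ih with hT | ⟨t, ht, e, hT⟩
      · exfalso
        obtain ⟨t, ht⟩ := macro_sound (A := A) (N := N) (W := W) (q := q) (M := M) h T
        obtain ⟨j, _, _, e2, _⟩ := macro_step ht
        apply hna
        rw [ht] at hT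
        rw [e2, keep ha hT _ (by omega)]
        exact hT
      · obtain ⟨j, hj, h1, e2, h3⟩ := macro_step e
        rw [e2] at hna
        refine ⟨t + j + 1, ?_, e2, ?_⟩
        · by_contra hcon
          exact hna (hacc _ (by omega))
        · by_cases hc : chg A N W q M (t + j)
          · have := hφ2 t j hc
            omega
          · have hj2 : j = 2 ^ h := h3.resolve_right hc
            subst hj2
            have := hφ3 t h1 hna
            omega
  intro T hT
  rcases main T with h1 | ⟨t, ht, _, h2⟩
  · exact h1
  · have := hφ1 t ht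
    omega

end

end Pool.Agent.Helper28.Few
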