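import Pool.Agent.Helper28.Few.Mach
import Pool.Agent.Helper28.Long.Par

/-!
# The bounds of the theorem and the parameters of the simulation
-/

namespace Pool.Agent.Helper28.Few

open Pool.Agent.Helper65.LinSpace Pool.Agent.Helper78.Mpc Pool.Agent.Helper28.Ram Finset Filter
open Pool.Agent.Helper28.Long (ZL le_ZL ev_par)
open Pool.Agent.Helper81.Tok2 (gH CH Par)

theorem lt_gH_sq (n h : ℕ) : n + 1 ≤ gH n h * gH n h * (ll n + h) := by
  have hp := ll_pos n
  have h1 : n / (ll n + h) < gH n h * gH n h := Nat.lt_succ_sqrt _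
  have h2 : n < (n / (ll n + h) + 1) * (ll n + h) := by
    have := Nat.lt_div_mul_add (a := n) (b := ll n + h) (by omega)
    rw [add_mul, one_mul]
    exact this
  have h3 : (n / (ll n + h) + 1) * (ll n + h) ≤ gH n h * gH n h * (ll n + h) :=
    Nat.mul_le_mul_right _ h1
  omega

theorem ev_few (C : ℝ) : ∀ᶠ n : ℕ in atTop, ∀ x s a h : ℕ, 1 ≤ s →
    (x : ℝ) * s * ((h : ℝ) + ((Nat.log 2 n : ℝ) + 1)) ^ 2 ≤ C * ((n : ℝ) + 1) ^ ((3 : ℝ) / 2) →
    (s : ℝ) * ((h : ℝ) + 1) * ((h : ℝ) + ((Nat.log 2 n : ℝ) + 1)) ≤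
      C * ((n : ℝ) + 1) ^ ((1 : ℝ) / 2) →
    (a : ℝ) * ((h : ℝ) + ((Nat.log 2 n : ℝ) + 1)) ^ 2 ≤ C * ((n : ℝ) + 1) →
    (s + 2) * h ≤ gH n h ∧ s < gH n h ∧ a < gH n h * gH n h ∧ a ≤ ZL n ∧
      2 * x + 1 ≤ gH n h * (gH n h * (gH n h / (s + 1))) := by
  obtain ⟨k, hk⟩ := exists_nat_gt ((24 * |C| + 24) ^ 2)
  filter_upwards [ev_ll_ge k, le_ZL C] with n hn hZ x s a h hs h1 h2 h3
  have hC : C ≤ |C| := le_abs_self C
  have hC0 := abs_nonneg C
  have hl : ((ll n + h : ℕ) : ℝ) = (h : ℝ) + ((Nat.log 2 n : ℝ) + 1) := by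
    unfold ll
    push_cast
    ring
  have hN : ((n : ℝ) + 1) ≤ (gH n h : ℝ) * gH n h * ((ll n + h : ℕ) : ℝ) := by
    exact_mod_cast lt_gH_sq n h
  have haZ : a ≤ ZL n := by
    refine hZ a ?_
    rw [le_div_iff₀ (by positivity)]
    refine le_trans (mul_le_mul_of_nonneg_left ?_ (Nat.cast_nonneg a)) h3
    have h5 : (0 : ℝ) ≤ h := Nat.cast_nonneg h
    exact pow_le_pow_left₀ (by positivity) (by linarith) 2
  rw [← hl] at h1 h2 h3
  have hlk : (24 * |C| + 24) ^ 2 < ((ll n + h : ℕ) : ℝ) :=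
    lt_of_lt_of_le hk (by exact_mod_cast hn.trans (Nat.le_add_right _ _))
  set L : ℝ := ((ll n + h : ℕ) : ℝ) with hL
  set g : ℝ := (gH n h : ℝ) with hg
  have hg1 : (1 : ℝ) ≤ g := by
    rw [hg]
    exact_mod_cast gH_pos n h
  set u : ℝ := Real.sqrt L with hu
  have hl0 : (0 : ℝ) ≤ L := Nat.cast_nonneg _
  have hu0 : 0 ≤ u := Real.sqrt_nonneg _
  have huu : u * u = L := Real.mul_self_sqrt hl0
  have hub : 24 * |C| + 24 < u := by
    rw [hu]
    exact Real.lt_sqrt_of_sq_lt hlk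
  set v : ℝ := Real.sqrt ((n : ℝ) + 1) with hv
  have hn0 : (0 : ℝ) ≤ (n : ℝ) + 1 := by positivity
  have hv0 : 0 ≤ v := Real.sqrt_nonneg _
  have hvv : v * v = (n : ℝ) + 1 := Real.mul_self_sqrt hn0
  have e1 : ((n : ℝ) + 1) ^ ((1 : ℝ) / 2) = v := by rw [hv, Real.sqrt_eq_rpow]
  have e3 : ((n : ℝ) + 1) ^ ((3 : ℝ) / 2) = v * v * v := by
    have : (3 : ℝ) / 2 = 1 + 1 / 2 := by norm_num
    rw [this, Real.rpow_add (by positivity), Real.rpow_one, e1, hvv]
  rw [e3] at h1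
  rw [e1] at h2
  have hvg : v ≤ g * u := by
    have h3 : v * v ≤ (g * u) * (g * u) := by
      rw [hvv]
      calc (n : ℝ) + 1 ≤ g * g * L := hN
        _ = (g * u) * (g * u) := by rw [← huu]; ring
    exact abs_le_of_sq_le_sq' (by nlinarith) (by positivity) |>.2
  have hu1 : 0 < u := by linarith
  rw [← huu] at h1 h2 h3
  have hs0 : (1 : ℝ) ≤ s := by exact_mod_cast hs
  have hh0 : (0 : ℝ) ≤ h := Nat.cast_nonneg h
  have hx0 : (0 : ℝ) ≤ x := Nat.cast_nonneg x
  have ha0 : (0 : ℝ) ≤ a := Nat.cast_nonneg a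
  have hs1 : (1 : ℝ) ≤ (s : ℝ) * ((h : ℝ) + 1) := by nlinarith
  -- the length of the words
  have h4 : (s : ℝ) * ((h : ℝ) + 1) * u ≤ |C| * g := by
    have h6 : C * v ≤ |C| * (g * u) := mul_le_mul hC hvg hv0 hC0
    have h7 : ((s : ℝ) * ((h : ℝ) + 1) * u) * u ≤ (|C| * g) * u := by
      calc _ = (s : ℝ) * ((h : ℝ) + 1) * (u * u) := by ring
        _ ≤ |C| * (g * u) := h2.trans h6
        _ = _ := by ring
    exact le_of_mul_le_mul_right h7 hu1
  have hC1 : 0 < |C| := by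
    rcases hC0.lt_or_eq with hlt | heq
    · exact hlt
    · rw [← heq, zero_mul] at h4
      have h4' : 1 * u ≤ (s : ℝ) * ((h : ℝ) + 1) * u := mul_le_mul_of_nonneg_right hs1 hu0
      linarith
  have h8 : 24 * ((s : ℝ) * ((h : ℝ) + 1)) ≤ g := by
    have h9 : (s : ℝ) * ((h : ℝ) + 1) * (24 * |C| + 24) ≤ (s : ℝ) * ((h : ℝ) + 1) * u :=
      mul_le_mul_of_nonneg_left hub.le (by linarith)
    have h10 : |C| * (24 * ((s : ℝ) * ((h : ℝ) + 1))) ≤ |C| * g := by
      calc |C| * (24 * ((s : ℝ) * ((h : ℝ) + 1)))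
          ≤ (s : ℝ) * ((h : ℝ) + 1) * (24 * |C| + 24) := by
            have e : (s : ℝ) * ((h : ℝ) + 1) * (24 * |C| + 24) =
              |C| * (24 * ((s : ℝ) * ((h : ℝ) + 1))) + 24 * ((s : ℝ) * ((h : ℝ) + 1)) := by ring
            rw [e]
            linarith
        _ ≤ (s : ℝ) * ((h : ℝ) + 1) * u := h9
        _ ≤ |C| * g := h4
    exact le_of_mul_le_mul_left h10 hC1
  have h11 : 24 * (s * (h + 1)) ≤ gH n h := by
    rw [hg] at h8
    exact_mod_cast h8
  have h11' : s * (h + 1) = s * h + s := by ring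
  have h12 : h ≤ s * h := Nat.le_mul_of_pos_left h hs
  have h13 : (s + 2) * h = s * h + 2 * h := by ring
  have hsg : 4 * s ≤ gH n h := by omega
  -- the number of changes
  have h14 : 24 * ((x : ℝ) * s) ≤ g * g * g := by
    have h15 : C * (v * v * v) ≤ |C| * ((g * u) * (g * u) * (g * u)) :=
      mul_le_mul hC (mul_le_mul (mul_le_mul hvg hvg hv0 (by positivity)) hvg hv0 (by positivity))
        (by positivity) hC0
    have h16 : ((x : ℝ) * s * u) * (u * u * u) ≤ (|C| * (g * g * g)) * (u * u * u) := by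
      calc _ = (x : ℝ) * s * (u * u) ^ 2 := by ring
        _ ≤ |C| * ((g * u) * (g * u) * (g * u)) := h1.trans h15
        _ = _ := by ring
    have h17 : (x : ℝ) * s * u ≤ |C| * (g * g * g) := le_of_mul_le_mul_right h16 (by positivity)
    have hxs : (0 : ℝ) ≤ (x : ℝ) * s := by positivity
    have h18 : (x : ℝ) * s * (24 * |C| + 24) ≤ (x : ℝ) * s * u :=
      mul_le_mul_of_nonneg_left hub.le hxs
    have h19 : |C| * (24 * ((x : ℝ) * s)) ≤ |C| * (g * g * g) := by
      calc |C| * (24 * ((x : ℝ) * s)) ≤ (x : ℝ) * s * (24 * |C| + 24) := by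
            have e : (x : ℝ) * s * (24 * |C| + 24) =
              |C| * (24 * ((x : ℝ) * s)) + 24 * ((x : ℝ) * s) := by ring
            rw [e]
            linarith
        _ ≤ (x : ℝ) * s * u := h18
        _ ≤ |C| * (g * g * g) := h17
    exact le_of_mul_le_mul_left h19 hC1
  have h20 : 24 * (x * s) ≤ gH n h * gH n h * gH n h := by
    rw [hg] at h14
    exact_mod_cast h14
  -- the contents
  have h21 : 24 * (a : ℝ) ≤ g * g := by
    have h22 : C * ((n : ℝ) + 1) ≤ |C| * (g * g * (u * u)) := by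
      rw [huu]
      exact mul_le_mul hC hN hn0 hC0
    have h23 : ((a : ℝ) * (u * u)) * (u * u) ≤ (|C| * (g * g)) * (u * u) := by
      calc _ = (a : ℝ) * (u * u) ^ 2 := by ring
        _ ≤ |C| * (g * g * (u * u)) := h3.trans h22
        _ = _ := by ring
    have h24 : (a : ℝ) * (u * u) ≤ |C| * (g * g) := le_of_mul_le_mul_right h23 (by positivity)
    have h25 : 24 * |C| ≤ u * u := by
      have h25' : u * 1 ≤ u * u := mul_le_mul_of_nonneg_left (by linarith) hu0
      linarith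
    have h26 : |C| * (24 * (a : ℝ)) ≤ |C| * (g * g) := by
      calc |C| * (24 * (a : ℝ)) = (a : ℝ) * (24 * |C|) := by ring
        _ ≤ (a : ℝ) * (u * u) := mul_le_mul_of_nonneg_left h25 ha0
        _ ≤ _ := h24
    exact le_of_mul_le_mul_left h26 hC1
  have h27 : 24 * a ≤ gH n h * gH n h := by
    rw [hg] at h21
    exact_mod_cast h21
  have hgg : 0 < gH n h * gH n h := Nat.mul_pos (gH_pos n h) (gH_pos n h)
  refine ⟨by omega, by omega, by omega, haZ, ?_⟩
  set b := gH n h / (s + 1) with hb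
  have hb1 : 1 ≤ b := by
    rw [hb, Nat.le_div_iff_mul_le (by omega)]
    omega
  have h28 : gH n h ≤ 4 * s * b := by
    have h29 : gH n h < (b + 1) * (s + 1) := by
      have := Nat.lt_div_mul_add (a := gH n h) (b := s + 1) (by omega)
      rw [add_mul, one_mul]
      exact this
    have h30 : (b + 1) * (s + 1) ≤ (2 * b) * (2 * s) := Nat.mul_le_mul (by omega) (by omega)
    have h31 : (2 * b) * (2 * s) = 4 * s * b := by ring
    omega
  have h32 : 6 * x * (4 * s) ≤ gH n h * (gH n h * b) * (4 * s) := by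
    calc 6 * x * (4 * s) = 24 * (x * s) := by ring
      _ ≤ gH n h * gH n h * gH n h := h20
      _ ≤ gH n h * gH n h * (4 * s * b) := Nat.mul_le_mul_left _ h28
      _ = _ := by ring
  have h33 : 6 * x ≤ gH n h * (gH n h * b) := Nat.le_of_mul_le_mul_right h32 (by omega)
  have h34 : 0 < gH n h * (gH n h * b) :=
    Nat.mul_pos (gH_pos n h) (Nat.mul_pos (gH_pos n h) hb1)
  omega

end Pool.Agent.Helper28.Few
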