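import Pool.Agent.Helper28.Few.Par
import Pool.Agent.Helper28.Long.Main
import Pool.Agent.Helper78.Gen2.Main

/-!
# Random access machines with few changes of registers are weaker than linear space
-/

namespace Pool.Agent.Helper28.Few

open Pool.Agent.Helper65.LinSpace Pool.Agent.Helper78.Mpc Pool.Agent.Helper28.Ram Finset Filter
open Pool.Agent.Helper28.Long (ZL ev_par machL)
open Pool.Agent.Helper81.Tok2 (gH CH Par LSM)

/-- The simulation theorem for macro runs. -/
structure Sim where
  sim : ℕ → Pool.Agent.Helper81.Tok2.Mach → ℕ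
  ls : ∀ {α : Type} [Ctx α] {m : α → Pool.Agent.Helper81.Tok2.Mach} {x : α → ℕ}, LS x →
    LSM m (fun z => CH (x z)) → (∀ z, Par (Nat.log 2 (x z)) (m z)) →
    LS (fun z => sim (Nat.log 2 (x z)) (m z))
  eq : ∀ (m : Pool.Agent.Helper81.Tok2.Mach) (n : ℕ), m.Ok → Par n m →
    sim n m = (m.conf (gH n m.h * (gH n m.h * (gH n m.h / m.σ)))).1
  nv : ∀ (m : Pool.Agent.Helper81.Tok2.Mach) (x : ℕ), m.Ok → Par (Nat.log 2 x) m →
    2 ^ m.nv m.G ≤ CH x

/-- The simulation: `1` if the machine with the code `e` accepts, with the bounds coded by `T`. -/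
noncomputable def accF (P : Sim) (e x y T : ℕ) : ℕ :=
  accN (P.sim (Nat.log 2 x) (machH (Nat.unpair e).1 (Nat.unpair (Nat.unpair e).2).1
      (Nat.unpair (Nat.unpair (Nat.unpair e).2).2).1
      (Nat.unpair (Nat.unpair (Nat.unpair (Nat.unpair e).2).2).2).1
      (Nat.unpair (Nat.unpair (Nat.unpair (Nat.unpair (Nat.unpair e).2).2).2).2).1
      (Nat.unpair (Nat.unpair (Nat.unpair (Nat.unpair (Nat.unpair e).2).2).2).2).2 x y
      (T / (Nat.log 2 x + 2) / (ZL (Nat.log 2 x) + 1))
      (T / (Nat.log 2 x + 2) % (ZL (Nat.log 2 x) + 1)) (T % (Nat.log 2 x + 2))))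

/-- The number of codes of bounds. -/
def NF (x : ℕ) : ℕ := gR (Nat.log 2 x) * (ZL (Nat.log 2 x) + 1) * (Nat.log 2 x + 2)

theorem LS.NF : LS Few.NF := by
  unfold Few.NF
  have h : LS (fun x => Nat.log 2 x) := by fun_prop
  exact LS.mul (LS.mul (Pool.Agent.Helper59.Ram.LS_gR h)
    (LS.add (Pool.Agent.Helper28.Long.LS.ZL h) (LS.const 1))) (LS.add h (LS.const 2))

theorem LS.accF (P : Sim) :
    LS (fun z : ℕ × ℕ × ℕ × ℕ => accF P z.1 z.2.1 z.2.2.1 z.2.2.2) := by
  unfold Few.accF
  refine Pool.Agent.Helper59.Ram.LS_accN ?_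
  have hx : LS (fun z : ℕ × ℕ × ℕ × ℕ => z.2.1) := by fun_prop
  have hZ : LS (fun z : ℕ × ℕ × ℕ × ℕ => ZL (Nat.log 2 z.2.1)) :=
    Pool.Agent.Helper28.Long.LS.ZL (by fun_prop)
  refine P.ls hx (lsm_machH (fun m x h1 h2 => P.nv m x h1 h2) ?_ ?_ ?_ ?_ ?_ ?_ hx ?_ ?_ ?_ ?_)
    fun z => par_machH _ _ _ _ _ _ _ _ _ _ _
  · fun_prop
  · fun_prop
  · fun_prop
  · fun_prop
  · fun_prop
  · fun_prop
  · fun_prop
  · exact LS.div (by fun_prop) (LS.add hZ (LS.const 1))
  · exact LS.mod (by fun_prop) (LS.add hZ (LS.const 1))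
  · fun_prop

/-- Every machine has a code. -/
theorem exists_acc (P : Sim) (A : RAM) : ∃ e n₀ : ℕ,
    ∀ w y : List Bool, n₀ ≤ w.length →
    (∀ T < NF (num w), accF P e (num w) (num y) T ≠ 0 → ∃ r, A.AcceptsAt w y r) ∧
    ∀ r s a x h, (s + 2) * h ≤ gH w.length h → s < gH w.length h →
      a < gH w.length h * gH w.length h → a ≤ ZL w.length →
      2 * x + 1 ≤ gH w.length h * (gH w.length h * (gH w.length h / (s + 1))) →
      A.changes w y r ≤ x → (r ≤ 2 ^ h * (x + 1) ∨ s < h) →
      A.FitsL w y r s a → A.AcceptsAt w y r →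
      ∃ T < NF (num w), accF P e (num w) (num y) T ≠ 0 := by
  obtain ⟨eA, eN, eW, ini, B0, st, c, hA⟩ := mcor2 A
  obtain ⟨n₀, hn₀⟩ := eventually_atTop.1 (ev_par c)
  refine ⟨Nat.pair eA (Nat.pair eN (Nat.pair eW (Nat.pair ini (Nat.pair B0 st)))), n₀,
    fun w y hw => ?_⟩
  have hlog : Nat.log 2 (num w) = w.length := Pool.Agent.Helper65.LinSpace.log_num w
  have hNF : NF (num w) = gR w.length * (ZL w.length + 1) * (w.length + 2) := by
    unfold NF
    rw [hlog]
  have hacc : ∀ T, accF P
      (Nat.pair eA (Nat.pair eN (Nat.pair eW (Nat.pair ini (Nat.pair B0 st)))))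
      (num w) (num y) T = accN (P.sim w.length (machH eA eN eW ini B0 st (num w) (num y)
        (T / (w.length + 2) / (ZL w.length + 1)) (T / (w.length + 2) % (ZL w.length + 1))
          (T % (w.length + 2)))) := by
    intro T
    unfold accF
    simp only [Nat.unpair_pair, hlog]
  constructor
  · intro T hT hne
    rw [hNF] at hT
    rw [hacc] at hne
    have hS : T / (w.length + 2) / (ZL w.length + 1) < gR w.length := by
      rw [Nat.div_lt_iff_lt_mul (by omega), Nat.div_lt_iff_lt_mul (by omega)]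
      exact hT
    have hZ : T / (w.length + 2) % (ZL w.length + 1) ≤ ZL w.length := by
      have := Nat.mod_lt (T / (w.length + 2)) (show 0 < ZL w.length + 1 by omega)
      omega
    generalize T / (w.length + 2) / (ZL w.length + 1) = S at *
    generalize T / (w.length + 2) % (ZL w.length + 1) = Z at *
    generalize T % (w.length + 2) = h at *
    have h0 := P.eq _ w.length (ok_machH eA eN eW ini B0 st (num w) (num y) S Z h)
      (by
        have := par_machH eA eN eW ini B0 st (num w) (num y) S Z h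
        rwa [hlog] at this)
    rw [h0, conf_eq] at hne
    have hS' : min S (gH w.length (hX w.length S h) - 1) < gR w.length :=
      lt_of_le_of_lt (min_le_left _ _) hS
    have hZ' : min Z (gH w.length (hX w.length S h) * gH w.length (hX w.length S h) - 1) ≤
      ZL w.length := (min_le_left _ _).trans hZ
    obtain ⟨h1, h2, h3⟩ := hn₀ w.length hw _ hS' _ hZ'
    obtain ⟨h4, h5⟩ := h3 _ hlog
    have h6 := (hA w y _ _ (LW w.length) (2 ^ (2 * ll w.length)) (CR (num w))
      (gH w.length (hX w.length S h)) (hX w.length S h) h1 h2 h4 h5).1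
    unfold machH at hne
    rw [hlog] at hne
    exact h6 (gH w.length (hX w.length S h) * (gH w.length (hX w.length S h) *
      (gH w.length (hX w.length S h) / (min S (gH w.length (hX w.length S h) - 1) + 1))))
        (le_antisymm (accN_le _) (Nat.pos_of_ne_zero hne))
  · intro r s a x h q1 q2 q3 q4 q5 hx hb hfit hacc'
    have hgR := gH_le w.length h
    have hgn := Pool.Agent.Helper69.Ram.gR_le w.length
    have hhn : h < w.length + 2 := by
      have : h ≤ (s + 2) * h := Nat.le_mul_of_pos_left h (by omega)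
      omega
    refine ⟨(s * (ZL w.length + 1) + a) * (w.length + 2) + h, ?_, ?_⟩
    · rw [hNF]
      have h1 : s * (ZL w.length + 1) + a < gR w.length * (ZL w.length + 1) := by
        calc s * (ZL w.length + 1) + a < s * (ZL w.length + 1) + (ZL w.length + 1) := by omega
          _ = (s + 1) * (ZL w.length + 1) := by ring
          _ ≤ _ := Nat.mul_le_mul_right _ (by omega)
      calc (s * (ZL w.length + 1) + a) * (w.length + 2) + h
          < (s * (ZL w.length + 1) + a) * (w.length + 2) + (w.length + 2) := by omega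
        _ = (s * (ZL w.length + 1) + a + 1) * (w.length + 2) := by ring
        _ ≤ _ := Nat.mul_le_mul_right _ h1
    · have e0 : ((s * (ZL w.length + 1) + a) * (w.length + 2) + h) / (w.length + 2) =
          s * (ZL w.length + 1) + a := by
        rw [mul_comm, Nat.mul_add_div (by omega), Nat.div_eq_of_lt (by omega), add_zero]
      have e0' : ((s * (ZL w.length + 1) + a) * (w.length + 2) + h) % (w.length + 2) = h := by
        rw [mul_comm, Nat.mul_add_mod, Nat.mod_eq_of_lt (by omega)]
      have e1 : (s * (ZL w.length + 1) + a) / (ZL w.length + 1) = s := by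
        rw [mul_comm, Nat.mul_add_div (by omega), Nat.div_eq_of_lt (by omega), add_zero]
      have e2 : (s * (ZL w.length + 1) + a) % (ZL w.length + 1) = a := by
        rw [mul_comm, Nat.mul_add_mod, Nat.mod_eq_of_lt (by omega)]
      obtain ⟨h1, h2, h3⟩ := hn₀ w.length hw s (by omega) _ q4
      obtain ⟨h4, h5⟩ := h3 _ hlog
      have h0 := P.eq _ w.length (ok_machH eA eN eW ini B0 st (num w) (num y) s a h)
        (by
          have := par_machH eA eN eW ini B0 st (num w) (num y) s a h
          rwa [hlog] at this)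
      have eh : hX w.length s h = h := hX_eq q1
      have es : min s (gH w.length h - 1) = s := min_eq_left (by omega)
      have ez : min a (gH w.length h * gH w.length h - 1) = a := min_eq_left (by omega)
      rw [hacc, e0, e0', e1, e2, h0, conf_eq]
      unfold machH
      rw [hlog, eh, es, ez]
      have h6 := (hA w y s a (LW w.length) (2 ^ (2 * ll w.length)) (CR (num w))
        (gH w.length h) h h1 h2 h4 h5).2 r x
          (gH w.length h * (gH w.length h * (gH w.length h / (s + 1)))) hx hb q5 hfit hacc'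
      intro hcon
      have h7 : accN (mrun (machL eA eN eW ini B0 st (LW w.length) (2 ^ (2 * ll w.length))
          (CR (num w)) (num w) (num y) (gH w.length h) s a) h
            (gH w.length h * (gH w.length h * (gH w.length h / (s + 1))))).1 = 0 := hcon
      omega

theorem exists_good (P : Sim) (A : RAM) (C : ℝ) : ∃ e n₀ : ℕ,
    ∀ w y : List Bool, n₀ ≤ w.length →
    (∀ T < NF (num w), accF P e (num w) (num y) T ≠ 0 → ∃ r, A.AcceptsAt w y r) ∧
    (A.Within C w y → ∃ T < NF (num w), accF P e (num w) (num y) T ≠ 0) := by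
  obtain ⟨e, n₀, he⟩ := exists_acc P A
  obtain ⟨n₁, hn₁⟩ := eventually_atTop.1 (ev_few C)
  refine ⟨e, n₀ + n₁, fun w y hw => ?_⟩
  obtain ⟨h1, h2⟩ := he w y (by omega)
  refine ⟨h1, ?_⟩
  rintro ⟨r, s, a, x, h, hx, hb, b1, b2, b3, hfit, hacc⟩
  obtain ⟨q1, q2, q3, q4, q5⟩ := hn₁ w.length (by omega) x s a h
    (Pool.Agent.Helper28.Long.one_le_of_accepts hfit hacc) b1 b2 b3
  exact h2 r s a x h q1 q2 q3 q4 q5 hx hb hfit hacc

theorem alt_iff (b : Bool) (N : ℕ) (f : List Bool → Prop) :
    Pool.Agent.Helper78.Gen2.Alt b N f ↔ Alt b N f := by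
  induction N generalizing b f with
  | zero =>
    cases b <;> exact Iff.rfl
  | succ N ih =>
    cases b with
    | true => exact exists_congr fun x => ih _ _
    | false => exact forall_congr' fun x => ih _ _

/-- **Average-case hardness for random access machines with few changes of registers.** -/
theorem few_main (P : Sim) (c : ℕ) :
    ∃ (L : Set (List Bool)) (s : ℕ → List Bool), DLINSPACE L ∧
      (∀ n, (s n).length = n) ∧
      (∀ w, w ∈ L ↔ Odd ((List.zipWith and (s w.length) w).count true)) ∧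
      ∀ (A : RAM) (C : ℝ), ∃ c' : ℝ, ∀ (n : ℕ) (α : List Bool), ∀ M, M = L ∨ M = Lᶜ →
        ({w : List Bool | w.length = n ∧
          (Alt true (c * n) (fun v => ∃ r, A.AcceptsAt w (α ++ v) r) → w ∈ M) ∧
          (w ∈ M → Alt true (c * n) fun v => A.Within C w (α ++ v))}.ncard : ℝ) ≤
          2 ^ n / 2 + c' * ((min α.length (n - α.length) : ℕ) + 1) *
            2 ^ (((n : ℝ) + α.length) / 2) := by
  obtain ⟨L, s, h1, h2, h3, h4⟩ := Pool.Agent.Helper78.Gen2.alt_main (accF P) NF (LS.accF P)
    LS.NF c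
  refine ⟨L, s, h1, h2, h3, fun A C => ?_⟩
  have h := h4 (fun w y => ∃ r, A.AcceptsAt w y r) (A.Within C) (exists_good P A C)
  simp only [alt_iff] at h
  exact h

/-- Languages accepted by random access machines with few changes of registers are in linear
space. -/
theorem few_lin (P : Sim) (c : ℕ) (A : RAM) (L : Set (List Bool)) (C : ℝ)
    (h1 : ∀ w, Alt true (c * w.length) (fun v => ∃ r, A.AcceptsAt w v r) → w ∈ L)
    (h2 : ∀ w ∈ L, Alt true (c * w.length) (A.Within C w)) : DLINSPACE L :=
  Pool.Agent.Helper78.Gen2.alt_lin (accF P) NF (LS.accF P) LS.NF c L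
    (fun w y => ∃ r, A.AcceptsAt w y r) (A.Within C) (exists_good P A C)
    (fun w h => h1 w ((alt_iff _ _ _).1 h)) (fun w hw => (alt_iff _ _ _).2 (h2 w hw))

end Pool.Agent.Helper28.Few
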