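import Pool.Agent.Helper28.Few.MCor
import Pool.Agent.Helper28.Long.MLS
import Pool.Agent.Helper81.Tok2.Goals

/-!
# The machines on numbers for the simulation with free silent steps
-/

namespace Pool.Agent.Helper28.Few

open Pool.Agent.Helper65.LinSpace Pool.Agent.Helper78.Mpc Pool.Agent.Helper28.Ram Finset
open Pool.Agent.Helper59.Ram (LS_gR LS_CR LS_accN CM_le_CR pow_ll_le)
open Pool.Agent.Helper28.Long (machL pow_le_CR)
open Pool.Agent.Helper81.Tok2 (gH CH Par)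

/-- The machine on numbers of a random access machine, with `2 ^ h` silent steps in a macro step. -/
def machM (eA eN eW ini B0 st Λ β B x y g S Z h : ℕ) : Pool.Agent.Helper81.Tok2.Mach where
  σ := S + 1
  a := Z + 1
  b := g / (S + 1)
  G := g
  h := h
  A := (machL eA eN eW ini B0 st Λ β B x y g S Z).A
  N := (machL eA eN eW ini B0 st Λ β B x y g S Z).N
  W := (machL eA eN eW ini B0 st Λ β B x y g S Z).W
  q0 := (machL eA eN eW ini B0 st Λ β B x y g S Z).q0
  M0 := (machL eA eN eW ini B0 st Λ β B x y g S Z).M0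

theorem run_eq (m : Pool.Agent.Helper81.Tok2.Mach) (M : ℕ → ℕ) (n q : ℕ) :
    m.run M n q = iter (fun _ u => sil m.A m.N m.W M u) n q := by
  induction n with
  | zero => rfl
  | succ n ih =>
    show (fun q => m.slt q (M (m.A q)))^[n + 1] q = sil m.A m.N m.W M
      (iter (fun _ u => sil m.A m.N m.W M u) n q)
    rw [Function.iterate_succ_apply', ← ih]
    have e : ∀ u, m.slt u (M (m.A u)) = sil m.A m.N m.W M u := by
      intro u
      unfold Pool.Agent.Helper81.Tok2.Mach.slt sil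
      by_cases h : m.W u (M (m.A u)) = M (m.A u)
      · rw [if_pos h, eq01, if_pos h, ifz_ne one_ne_zero]
      · rw [if_neg h, eq01, if_neg h, ifz_zero]
    exact e _

theorem conf_eq (m : Pool.Agent.Helper81.Tok2.Mach) (T : ℕ) :
    m.conf T = mcf m.A m.N m.W m.h m.q0 m.M0 T := by
  induction T with
  | zero => rfl
  | succ T ih =>
    show (m.N (m.run (m.conf T).2 (2 ^ m.h) (m.conf T).1)
      ((m.conf T).2 (m.A (m.run (m.conf T).2 (2 ^ m.h) (m.conf T).1))),
    Function.update (m.conf T).2 (m.A (m.run (m.conf T).2 (2 ^ m.h) (m.conf T).1))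
      (m.W (m.run (m.conf T).2 (2 ^ m.h) (m.conf T).1)
        ((m.conf T).2 (m.A (m.run (m.conf T).2 (2 ^ m.h) (m.conf T).1))))) = _
    rw [run_eq, ih]
    rfl

/-- The number of silent steps is reduced to `1` if it is too large. -/
def hX (n S h : ℕ) : ℕ := ifz (le01 ((S + 2) * h) (gH n h)) 0 h

theorem gH_pos (n h : ℕ) : 0 < gH n h := Nat.succ_pos _

theorem gH_le (n h : ℕ) : gH n h ≤ gR n := by
  unfold gH gR
  have h1 : n / (ll n + h) ≤ n / ll n := Nat.div_le_div_left (by omega) (ll_pos n)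
  have h2 := Nat.sqrt_le_sqrt h1
  omega

/-- The machine on numbers for inputs with the number `x`, with admissible parameters. -/
def machH (eA eN eW ini B0 st x y S Z h : ℕ) : Pool.Agent.Helper81.Tok2.Mach :=
  machM eA eN eW ini B0 st (LW (Nat.log 2 x)) (2 ^ (2 * ll (Nat.log 2 x))) (CR x) x y
    (gH (Nat.log 2 x) (hX (Nat.log 2 x) S h))
    (min S (gH (Nat.log 2 x) (hX (Nat.log 2 x) S h) - 1))
    (min Z (gH (Nat.log 2 x) (hX (Nat.log 2 x) S h) * gH (Nat.log 2 x) (hX (Nat.log 2 x) S h) - 1))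
    (hX (Nat.log 2 x) S h)

theorem hX_mul_le (n S h : ℕ) : (S + 2) * hX n S h ≤ gH n (hX n S h) := by
  unfold hX
  by_cases h1 : (S + 2) * h ≤ gH n h
  · rw [le01, if_pos h1, ifz_ne one_ne_zero]
    exact h1
  · rw [le01, if_neg h1, ifz_zero]
    simp

theorem hX_eq {n S h : ℕ} (h1 : (S + 2) * h ≤ gH n h) : hX n S h = h := by
  unfold hX
  rw [le01, if_pos h1, ifz_ne one_ne_zero]

theorem par_machH (eA eN eW ini B0 st x y S Z h : ℕ) :
    Par (Nat.log 2 x) (machH eA eN eW ini B0 st x y S Z h) := by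
  have h0 := gH_pos (Nat.log 2 x) (hX (Nat.log 2 x) S h)
  have h3 := hX_mul_le (Nat.log 2 x) S h
  have e1 : (machH eA eN eW ini B0 st x y S Z h).h = hX (Nat.log 2 x) S h := rfl
  have e2 : (machH eA eN eW ini B0 st x y S Z h).σ =
    min S (gH (Nat.log 2 x) (hX (Nat.log 2 x) S h) - 1) + 1 := rfl
  have e3 : (machH eA eN eW ini B0 st x y S Z h).G =
    gH (Nat.log 2 x) (hX (Nat.log 2 x) S h) := rfl
  have e4 : (machH eA eN eW ini B0 st x y S Z h).b =
    gH (Nat.log 2 x) (hX (Nat.log 2 x) S h) /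
      (min S (gH (Nat.log 2 x) (hX (Nat.log 2 x) S h) - 1) + 1) := rfl
  have e5 : (machH eA eN eW ini B0 st x y S Z h).a =
    min Z (gH (Nat.log 2 x) (hX (Nat.log 2 x) S h) *
      gH (Nat.log 2 x) (hX (Nat.log 2 x) S h) - 1) + 1 := rfl
  generalize hX (Nat.log 2 x) S h = k at *
  generalize hg : gH (Nat.log 2 x) k = g at *
  have h2 : 0 < g * g := Nat.mul_pos h0 h0
  have h4 : min S (g - 1) ≤ g - 1 := min_le_right _ _
  have h5 : min S (g - 1) ≤ S := min_le_left _ _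
  have h6 : min Z (g * g - 1) ≤ g * g - 1 := min_le_right _ _
  refine ⟨?_, ?_, ?_, ?_, ?_⟩
  · rw [e1, e2, hg]
    omega
  · rw [e1, e2, hg]
    refine le_trans (Nat.mul_le_mul_right _ ?_) h3
    omega
  · rw [e1, e3, hg]
  · rw [e1, e4, e2, hg]
  · rw [e1, e5, hg]
    omega

theorem ok_machH (eA eN eW ini B0 st x y S Z h : ℕ) :
    (machH eA eN eW ini B0 st x y S Z h).Ok := by
  refine ⟨Nat.succ_pos _, ?_, ?_, ?_, ?_, ?_, ?_⟩
  · show 0 < gH (Nat.log 2 x) (hX (Nat.log 2 x) S h) /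
      (min S (gH (Nat.log 2 x) (hX (Nat.log 2 x) S h) - 1) + 1)
    have h1 := gH_pos (Nat.log 2 x) (hX (Nat.log 2 x) S h)
    have h2 : min S (gH (Nat.log 2 x) (hX (Nat.log 2 x) S h) - 1) ≤
      gH (Nat.log 2 x) (hX (Nat.log 2 x) S h) - 1 := min_le_right _ _
    exact Nat.div_pos (by omega) (by omega)
  · intro q
    exact lt_of_le_of_lt (Nat.sub_le _ _) (capN_lt _ _)
  · intro q v
    exact capN_lt _ _
  · intro q v
    exact capN_lt _ _
  · exact capN_lt _ _
  · intro a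
    exact capN_lt _ _

theorem CR_le_CH (x : ℕ) : CR x ≤ CH x := by
  unfold CR CH
  exact Nat.pow_le_pow_right (by omega) (by norm_num)

variable {α : Type} [Ctx α]

theorem LS_gH {n h : α → ℕ} (hn : LS n) (hh : LS h) : LS (fun a => gH (n a) (h a)) := by
  unfold gH
  fun_prop

theorem LS_hX {n S h : α → ℕ} (hn : LS n) (hS : LS S) (hh : LS h) :
    LS (fun a => hX (n a) (S a) (h a)) := by
  unfold hX
  exact LS.ifz (LS.le01 (by fun_prop) (LS_gH hn hh)) (LS.const 0) hh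

theorem sv_le (eA eN eW ini B0 st x y S Z h : ℕ) :
    (machH eA eN eW ini B0 st x y S Z h).sv ≤ CH x := by
  have h1 := (par_machH eA eN eW ini B0 st x y S Z h).hh
  refine le_trans ?_ (CR_le_CH x)
  unfold Pool.Agent.Helper81.Tok2.Mach.sv
  rw [← pow_mul]
  refine pow_le_CR (h1.trans ?_)
  have h2 := gH_le (Nat.log 2 x) (machH eA eN eW ini B0 st x y S Z h).h
  have h3 := Pool.Agent.Helper69.Ram.gR_le (Nat.log 2 x)
  omega

/-- The machines form a family computed in linear space. -/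
theorem lsm_machH (hnv : ∀ (m : Pool.Agent.Helper81.Tok2.Mach) (x : ℕ), m.Ok →
      Par (Nat.log 2 x) m → 2 ^ m.nv m.G ≤ CH x) {eA eN eW ini B0 st x y S Z h : α → ℕ}
    (heA : LS eA) (heN : LS eN) (heW : LS eW) (hini : LS ini) (hB0 : LS B0) (hst : LS st)
    (hx : LS x) (hy : LS y) (hS : LS S) (hZ : LS Z) (hh : LS h) :
    Pool.Agent.Helper81.Tok2.LSM (fun z => machH (eA z) (eN z) (eW z) (ini z) (B0 z) (st z) (x z)
      (y z) (S z) (Z z) (h z)) (fun z => CH (x z)) := by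
  have hn : LS (fun z => Nat.log 2 (x z)) := LS.log2 hx
  have hH : LS (fun z => hX (Nat.log 2 (x z)) (S z) (h z)) := LS_hX hn hS hh
  have hg : LS (fun z => gH (Nat.log 2 (x z)) (hX (Nat.log 2 (x z)) (S z) (h z))) := LS_gH hn hH
  have hS' : LS (fun z => min (S z) (gH (Nat.log 2 (x z)) (hX (Nat.log 2 (x z)) (S z) (h z)) -
    1)) := LS.min hS (LS.sub hg (LS.const 1))
  have hZ' : LS (fun z => min (Z z) (gH (Nat.log 2 (x z)) (hX (Nat.log 2 (x z)) (S z) (h z)) *
      gH (Nat.log 2 (x z)) (hX (Nat.log 2 (x z)) (S z) (h z)) - 1)) :=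
    LS.min hZ (LS.sub (LS.mul hg hg) (LS.const 1))
  have hC : LS (fun z => CR (x z)) := LS_CR hx
  have hCH : LS (fun z => CH (x z)) := by
    unfold CH
    exact (LS.add hx (LS.const 2)).pow_const 40000
  have hΛ : LS (fun z => LW (Nat.log 2 (x z))) := LS.LW hn
  have hβ : LS (fun z => 2 ^ (2 * ll (Nat.log 2 (x z)))) :=
    LS.pow_of_le (f := fun _ => 2) (by fun_prop) (by fun_prop) hC fun z => pow_ll_le (x z)
  have hβ0 : ∀ z, 0 < 2 ^ (2 * ll (Nat.log 2 (x z))) := fun z => by positivity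
  have hb : ∀ z, (2 ^ (2 * ll (Nat.log 2 (x z)))) ^ LW (Nat.log 2 (x z)) ≤ CR (x z) :=
    fun z => (beta_pow_le (x z)).trans (CM_le_CR (x z))
  -- functions of a further argument, with outputs of length at most `T`
  have hfn : ∀ {β : Type} [Ctx β] (π : β → α) (e T : α → ℕ) (u : β → ℕ), LS π → LS e → LS T →
      (∀ z, 2 ^ (T z + 1) ≤ CR (x z)) → LS u →
      LS (fun b => fnN (e (π b)) (T (π b)) (LW (Nat.log 2 (x (π b))))
        (2 ^ (2 * ll (Nat.log 2 (x (π b))))) (CR (x (π b))) (u b)) := by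
    intro β _ π e T u hπ he hT hTC hu
    have h1 : LS (fun b => e (π b)) := LS.comp (g := e) he hπ
    have h2 : LS (fun b => T (π b)) := LS.comp (g := T) hT hπ
    have h3 : LS (fun b => LW (Nat.log 2 (x (π b)))) :=
      LS.comp (g := fun z => LW (Nat.log 2 (x z))) hΛ hπ
    have h4 : LS (fun b => 2 ^ (2 * ll (Nat.log 2 (x (π b))))) :=
      LS.comp (g := fun z => 2 ^ (2 * ll (Nat.log 2 (x z)))) hβ hπ
    have h5 : LS (fun b => CR (x (π b))) := LS.comp (g := fun z => CR (x z)) hC hπ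
    exact LS.fnN h1 h2 h3 h4 h5 hu h5 (fun b => hβ0 (π b)) (fun b => hb (π b))
      (fun b => hTC (π b))
  have hcap : ∀ {β : Type} [Ctx β] (π : β → α) (T : α → ℕ) (u : β → ℕ), LS π → LS T → LS u →
      LS (fun b => capN (T (π b)) (u b)) := by
    intro β _ π T u hπ hT hu
    exact LS.capN (LS.comp (g := T) hT hπ) hu
  have hSC : ∀ z, 2 ^ (min (S z) (gH (Nat.log 2 (x z)) (hX (Nat.log 2 (x z)) (S z) (h z)) - 1) +
      1) ≤ CR (x z) := by
    intro z
    refine pow_le_CR ?_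
    have h1 := gH_le (Nat.log 2 (x z)) (hX (Nat.log 2 (x z)) (S z) (h z))
    have h2 : min (S z) (gH (Nat.log 2 (x z)) (hX (Nat.log 2 (x z)) (S z) (h z)) - 1) ≤
      gH (Nat.log 2 (x z)) (hX (Nat.log 2 (x z)) (S z) (h z)) - 1 := min_le_right _ _
    have h3 := Pool.Agent.Helper69.Ram.gR_le (Nat.log 2 (x z))
    omega
  have hZC : ∀ z, 2 ^ (min (Z z) (gH (Nat.log 2 (x z)) (hX (Nat.log 2 (x z)) (S z) (h z)) *
      gH (Nat.log 2 (x z)) (hX (Nat.log 2 (x z)) (S z) (h z)) - 1) + 1) ≤ CR (x z) := by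
    intro z
    refine pow_le_CR ?_
    have h1 := gH_le (Nat.log 2 (x z)) (hX (Nat.log 2 (x z)) (S z) (h z))
    have h2 : min (Z z) (gH (Nat.log 2 (x z)) (hX (Nat.log 2 (x z)) (S z) (h z)) *
      gH (Nat.log 2 (x z)) (hX (Nat.log 2 (x z)) (S z) (h z)) - 1) ≤
      gH (Nat.log 2 (x z)) (hX (Nat.log 2 (x z)) (S z) (h z)) *
      gH (Nat.log 2 (x z)) (hX (Nat.log 2 (x z)) (S z) (h z)) - 1 := min_le_right _ _
    have h3 := Pool.Agent.Helper28.Long.gR_sq_le (Nat.log 2 (x z))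
    have h4 : gH (Nat.log 2 (x z)) (hX (Nat.log 2 (x z)) (S z) (h z)) *
      gH (Nat.log 2 (x z)) (hX (Nat.log 2 (x z)) (S z) (h z)) ≤
        gR (Nat.log 2 (x z)) * gR (Nat.log 2 (x z)) := Nat.mul_le_mul h1 h1
    omega
  refine ⟨?_, ?_, ?_, hg, hH, ?_, ?_, ?_, ?_, ?_, hCH, fun z => ok_machH _ _ _ _ _ _ _ _ _ _ _,
    fun z => hnv _ _ (ok_machH _ _ _ _ _ _ _ _ _ _ _) (par_machH _ _ _ _ _ _ _ _ _ _ _),
    fun z => sv_le _ _ _ _ _ _ _ _ _ _ _⟩
  · exact LS.add hS' (LS.const 1)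
  · exact LS.add hZ' (LS.const 1)
  · exact LS.div hg (LS.add hS' (LS.const 1))
  · -- A
    have h1 := hcap (fun b : α × ℕ => b.1) _ _ (by fun_prop) hS'
        (hfn (fun b : α × ℕ => b.1) eA _ (fun b => b.2) (by fun_prop) heA hS' hSC (by fun_prop))
    exact LS.sub h1 (LS.pow_log h1)
  · -- N
    have h0 := hfn (fun b : α × ℕ × ℕ => b.1) eA _ (fun b => b.2.1) (by fun_prop) heA hS' hSC
      (by fun_prop)
    have hc : LS (fun b : α × ℕ × ℕ => catN (sdN b.2.1) b.2.2) := by fun_prop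
    have h1 := hfn (fun b : α × ℕ × ℕ => b.1) eW _ (fun b => catN (sdN b.2.1) b.2.2)
      (by fun_prop) heW hZ' hZC hc
    have h2 := hfn (fun b : α × ℕ × ℕ => b.1) eN _ (fun b => catN (sdN b.2.1) b.2.2)
      (by fun_prop) heN hS' hSC hc
    have hq : LS (fun b : α × ℕ × ℕ => b.2.1) := by fun_prop
    have hv : LS (fun b : α × ℕ × ℕ => b.2.2) := by fun_prop
    exact hcap (fun b : α × ℕ × ℕ => b.1) _ _ (by fun_prop) hS'
      (LS.ifz (LS_accN hq) (LS.ifz (LS.mul h0 (LS.mul hv h1)) (LS.const 0) h2) hq)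
  · -- W
    have hc : LS (fun b : α × ℕ × ℕ => catN (sdN b.2.1) b.2.2) := by fun_prop
    have h1 := hfn (fun b : α × ℕ × ℕ => b.1) eW _ (fun b => catN (sdN b.2.1) b.2.2)
      (by fun_prop) heW hZ' hZC hc
    have hq : LS (fun b : α × ℕ × ℕ => b.2.1) := by fun_prop
    have hv : LS (fun b : α × ℕ × ℕ => b.2.2) := by fun_prop
    exact hcap (fun b : α × ℕ × ℕ => b.1) _ _ (by fun_prop) hZ' (LS.ifz (LS_accN hq) h1 hv)
  · -- q0
    exact LS.capN hS' hst
  · -- M0
    have ha : LS (fun b : α × ℕ => b.2) := by fun_prop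
    have hx' : LS (fun b : α × ℕ => x b.1) := by fun_prop
    have hy' : LS (fun b : α × ℕ => y b.1) := by fun_prop
    have hd : LS (fun b : α × ℕ => dig (B0 b.1) (ini b.1)
        (3 * letN (x b.1) b.2 + letN (y b.1) b.2)) := by
      fun_prop
    exact hcap (fun b : α × ℕ => b.1) _ _ (by fun_prop) hZ' hd

end Pool.Agent.Helper28.Few
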