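import Pool.Agent.Helper28.Ram.Defs
import Mathlib.Analysis.SpecialFunctions.Pow.Real

/-!
# Random access machines with long registers and few changes of registers: definitions
-/

namespace Pool.Agent.Helper28.Ram

/-- Up to the time `r`, the state and the address are words of length at most `s`, and the contents
of all registers are words of length at most `a`. -/
def RAM.FitsL (A : RAM) (w y : List Bool) (r s a : ℕ) : Prop :=
  ∀ t ≤ r, (A.conf w y t).1.length ≤ s ∧ (A.addr (A.conf w y t).1).length ≤ s ∧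
    ∀ j, ((A.conf w y t).2 j).length ≤ a

/-- The number of steps before the time `r` which change the content of a register. -/
noncomputable def RAM.changes (A : RAM) (w y : List Bool) (r : ℕ) : ℕ :=
  {t : ℕ | t < r ∧ (A.conf w y (t + 1)).2 ≠ (A.conf w y t).2}.ncard

/-- `A` accepts the input word `w` with the guessed word `y` at some time `r` and within the
following bounds, where `n` is the length of `w`. States and addresses have at most `s` bits, the
contents of registers at most `a` bits, and at most `x` steps change a register. The running time is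
at most `2 ^ h (x + 1)`; it is not bounded if `s < h`. For `l = h + ⌊log₂ n⌋ + 1`:
`x s l ^ 2 ≤ C (n + 1) ^ (3 / 2)`, `s (h + 1) l ≤ C (n + 1) ^ (1 / 2)` and `a l ^ 2 ≤ C (n + 1)`. -/
def RAM.Within (A : RAM) (C : ℝ) (w y : List Bool) : Prop :=
  ∃ r s a x h : ℕ, A.changes w y r ≤ x ∧ (r ≤ 2 ^ h * (x + 1) ∨ s < h) ∧
    (x : ℝ) * s * ((h : ℝ) + ((Nat.log 2 w.length : ℝ) + 1)) ^ 2 ≤
      C * ((w.length : ℝ) + 1) ^ ((3 : ℝ) / 2) ∧
    (s : ℝ) * ((h : ℝ) + 1) * ((h : ℝ) + ((Nat.log 2 w.length : ℝ) + 1)) ≤
      C * ((w.length : ℝ) + 1) ^ ((1 : ℝ) / 2) ∧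
    (a : ℝ) * ((h : ℝ) + ((Nat.log 2 w.length : ℝ) + 1)) ^ 2 ≤ C * ((w.length : ℝ) + 1) ∧
    A.FitsL w y r s a ∧ A.AcceptsAt w y r

/-- Two players choose the letters of a word `v` of length `N` in turn: `Alt b N f` is the statement
`Q₁ v₁ Q₂ v₂ … Q_N v_N : f (v₁ … v_N)` with alternating quantifiers over `{0, 1}`, where `Q₁` is `∃`
if `b` is true and `∀` otherwise. -/
def Alt : Bool → ℕ → (List Bool → Prop) → Prop
  | _, 0, f => f []
  | true, N + 1, f => ∃ x, Alt false N fun v => f (x :: v)
  | false, N + 1, f => ∀ x, Alt true N fun v => f (x :: v)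

end Pool.Agent.Helper28.Ram
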