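import Pool.Agent.Helper28.Few.Macro
import Pool.Agent.Helper28.Long.MCor

/-!
# Machines with few changes of registers and their machines on numbers
-/

namespace Pool.Agent.Helper28.Few

open Pool.Agent.Helper65.LinSpace Pool.Agent.Helper78.Mpc Pool.Agent.Helper28.Ram Finset
open Pool.Agent.Helper28.Long (machL exists_code)

/-- The macro run of a machine on numbers. -/
def mrun (m : Pool.Agent.Helper78.Tok.Mach) (h T : ℕ) : ℕ × (ℕ → ℕ) :=
  mcf m.A m.N m.W h m.q0 m.M0 T

theorem cap_mem {eA eN eW ini B0 st Λ β B x y g S Z : ℕ} (t j : ℕ) :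
    capN Z (((machL eA eN eW ini B0 st Λ β B x y g S Z).conf t).2 j) =
      ((machL eA eN eW ini B0 st Λ β B x y g S Z).conf t).2 j := by
  induction t with
  | zero => exact Pool.Agent.Helper11.Ram.capN_capN Z _
  | succ t ih =>
    have e : ((machL eA eN eW ini B0 st Λ β B x y g S Z).conf (t + 1)).2 =
        Function.update ((machL eA eN eW ini B0 st Λ β B x y g S Z).conf t).2
          ((machL eA eN eW ini B0 st Λ β B x y g S Z).A
            ((machL eA eN eW ini B0 st Λ β B x y g S Z).conf t).1)
          (capN Z _) := rfl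
    rw [e]
    by_cases h : j = (machL eA eN eW ini B0 st Λ β B x y g S Z).A
        ((machL eA eN eW ini B0 st Λ β B x y g S Z).conf t).1
    · rw [← h, Function.update_self]
      exact Pool.Agent.Helper11.Ram.capN_capN Z _
    · rw [Function.update_of_ne h]
      exact ih

/-- A random access machine on words and the macro run of its machine on numbers. -/
theorem mcor2 (A : RAM) : ∃ eA eN eW ini B0 st c : ℕ, ∀ (w y : List Bool)
    (S Z Λ β B g h : ℕ), c * (4 * S + 4 * Z + 4) ≤ Λ → c + Λ + 4 * S + 4 * Z + 4 ≤ β →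
    2 ^ (S + 1) ≤ B → 2 ^ (Z + 1) ≤ B →
    (∀ T, accN (mrun (machL eA eN eW ini B0 st Λ β B (num w) (num y) g S Z) h T).1 = 1 →
      ∃ t, A.AcceptsAt w y t) ∧
    ∀ r x T, A.changes w y r ≤ x → (r ≤ 2 ^ h * (x + 1) ∨ S < h) → 2 * x + 1 ≤ T →
      A.FitsL w y r S Z → A.AcceptsAt w y r →
      accN (mrun (machL eA eN eW ini B0 st Λ β B (num w) (num y) g S Z) h T).1 = 1 := by
  obtain ⟨eA, eN, eW, ini, B0, st, c, hc⟩ := exists_code A
  refine ⟨eA, eN, eW, ini, B0, st, c, fun w y S Z Λ β B g h hΛ hβ hB hB' => ?_⟩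
  obtain ⟨h1, h2, h3, h4, h5⟩ := hc w y S Z Λ β B g hΛ hβ hB hB'
  set m := machL eA eN eW ini B0 st Λ β B (num w) (num y) g S Z with hm
  refine ⟨fun T hT => ?_, fun r x T hx hb hT hfit hacc => ?_⟩
  · obtain ⟨t, ht⟩ := macro_sound (A := m.A) (N := m.N) (W := m.W) (q := m.q0) (M := m.M0) h T
    unfold mrun at hT
    rw [ht] at hT
    rcases h1 t with h6 | ⟨τ, _, h6, _⟩
    · change accN (m.conf t).1 = 1 at hT
      rw [h6, Pool.Agent.Helper11.Ram.accN_zero] at hT
      omega
    · change accN (m.conf t).1 = 1 at hT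
      rw [h6] at hT
      exact ⟨τ, (accN_num _).1 hT⟩
  · classical
    have hex : ∃ t, A.AcceptsAt w y t := ⟨r, hacc⟩
    have hle : Nat.find hex ≤ r := Nat.find_min' hex hacc
    have hcor : ∀ t ≤ Nat.find hex, (m.conf t).1 = num (A.conf w y t).1 ∧
        ∀ j, (m.conf t).2 j = num ((A.conf w y t).2 j) := fun t ht =>
      h2 r hfit t (ht.trans hle) fun s hs => Nat.find_min hex (lt_of_lt_of_le hs ht)
    have hacc0 : accN (m.conf (Nat.find hex)).1 = 1 := by
      rw [(hcor _ le_rfl).1]
      exact (accN_num _).2 (Nat.find_spec hex)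
    have habs : Absorb m.A m.N m.W m.q0 m.M0 (fun q => accN q = 1) := by
      intro t ht
      change accN (m.conf t).1 = 1 at ht
      show m.conf (t + 1) = m.conf t
      rw [Pool.Agent.Helper28.Long.conf_succ, h3 _ _ ht (h5 t), h4 _ _ ht (cap_mem t _),
        Function.update_eq_self]
    refine macro_complete (A := m.A) (N := m.N) (W := m.W) (q := m.q0) (M := m.M0) habs
      (h := h) (r := Nat.find hex) (x := x) hacc0 ?_ ?_ T hT
    · refine le_trans ?_ hx
      unfold chs RAM.changes
      rw [← Set.ncard_coe_finset]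
      refine Set.ncard_le_ncard ?_ ((Set.finite_lt_nat r).subset fun t ht => ht.1)
      intro t ht
      rw [mem_coe, mem_filter, mem_range] at ht
      refine ⟨by omega, fun he => ht.2 ?_⟩
      have e1 := (hcor t (by omega)).2
      have e2 := (hcor (t + 1) (by omega)).2
      have e3 : (m.conf (t + 1)).2 (m.A (m.conf t).1) = (m.conf t).2 (m.A (m.conf t).1) := by
        rw [e1, e2, he]
      rw [Pool.Agent.Helper28.Long.conf_succ] at e3
      change Function.update _ _ _ _ = _ at e3
      rw [Function.update_self] at e3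
      exact e3
    · rcases hb with hb | hb
      · exact Or.inl (hle.trans hb)
      · right
        intro t
        have h6 := h5 t
        change (m.conf t).1 < 2 ^ h
        rw [← h6]
        exact lt_of_lt_of_le (capN_lt _ _) (Nat.pow_le_pow_right (by norm_num) hb)

end Pool.Agent.Helper28.Few
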