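import Pool.Agent.Helper28.Few.Main
import Pool.Agent.Helper81.Tok2.Sim

/-!
# The simulation of macro runs
-/

namespace Pool.Agent.Helper28.Few

open Pool.Agent.Helper65.LinSpace Pool.Agent.Helper81.Tok2

/-- The simulation theorem in the form which is used in `Main.lean`. -/
noncomputable def simOf (P : Parts) : Sim where
  sim n m := m.sim (pH n m.h) (JH n m.h) (gH n m.h)
  ls hx hM hpar := ls_simT P hx hM hpar
  eq _ _ hok hpar := simT_eq P hok hpar
  nv _ _ hok hpar := nv_le P hok hpar

end Pool.Agent.Helper28.Few
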